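import Pool.Agent.H93.RG.Defs

/-!
# FG for blocks of size `r`, module COM: decided values are the values at one common partial partition (helper27)
-/

set_option autoImplicit false
set_option linter.unusedSectionVars false

namespace Pool.Agent.H27.RG

open Finset
open Pool.Agent.H93.RG
open Pool.Agent.H3.Frg hiding ind
open Pool.Agent.H3.Ac (ldep SubCl)
open Pool.Agent.H67.FG (ind Alg Fo tr orAll orF IsRef Few)

variable {W V : Type} [Fintype V] [DecidableEq V] {r : ℕ}

private theorem isM_emp : IsM r (∅ : Finset (Finset V)) :=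
  ⟨fun e he => absurd he (notMem_empty e), fun e he => absurd he (notMem_empty e)⟩

private theorem isM_down {M N : Finset (Finset V)} (h : IsM r M) (hs : N ⊆ M) : IsM r N :=
  ⟨fun e he => h.1 e (hs he), fun e he f hf => h.2 e (hs he) f (hs hf)⟩

private theorem card_cov_le {M : Finset (Finset V)} (h : IsM r M) : (cov M).card ≤ r * M.card := by
  have h1 : cov M ⊆ M.biUnion id := by
    intro v hv
    have hv' : ∃ e ∈ M, v ∈ e := by
      unfold cov at hv
      simpa only [mem_filter, mem_univ, true_and] using hv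
    obtain ⟨e, he, hve⟩ := hv'
    exact mem_biUnion.2 ⟨e, he, hve⟩
  refine (card_le_card h1).trans (card_biUnion_le.trans ?_)
  have h2 : ∑ e ∈ M, (id e : Finset V).card ≤ ∑ _e ∈ M, r := sum_le_sum fun e he => (h.1 e he).le
  rw [sum_const, smul_eq_mul, mul_comm] at h2
  exact h2

/-- a decided value is the value at every partial partition above -/
private theorem dec_val {w R : ℕ} {f : Finset (Finset V) → Option Bool} (hf : Val r w R f)
    {π M : Finset (Finset V)} {b c : Bool} (hd : dec r w f π = some b) (hM : IsM r M) (hs : π ⊆ M)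
    (hv : f M = some c) : c = b := by
  obtain ⟨t, h1, h2, h3⟩ := hf.wit M hM c hv
  have ht : IsM r t := isM_down hM h1
  have hc : Cmp r t π := isM_down hM (union_subset h1 hs)
  unfold dec at hd
  split_ifs at hd with h4 h5
  · have hb : true = b := Option.some.inj hd
    cases c with
    | true => exact hb
    | false => exact absurd hc (h4 t ht h2 h3)
  · have hb : false = b := Option.some.inj hd
    cases c with
    | true => exact absurd hc (h5 t ht h2 h3)
    | false => exact hb

/-- the blocks at few points are few -/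
private theorem card_tch_le {A : Finset V} {M : Finset (Finset V)} (hM : IsM r M) :
    (tch A M).card ≤ A.card := by
  classical
  have h1 : ∀ e ∈ tch A M, ∃ v, v ∈ A ∧ v ∈ e := by
    intro e he
    unfold tch at he
    obtain ⟨v, hv, hve⟩ := (mem_filter.1 he).2
    exact ⟨v, hv, hve⟩
  choose g hg using h1
  have h2 : (tch A M).attach.card ≤ A.card := by
    refine card_le_card_of_injOn (fun e => g e.1 e.2) (fun e _ => (hg e.1 e.2).1) ?_
    intro e _ f _ hef
    have he : e.1 ∈ M := (mem_filter.1 (by have := e.2; unfold tch at this; exact this)).1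
    have hf : f.1 ∈ M := (mem_filter.1 (by have := f.2; unfold tch at this; exact this)).1
    refine Subtype.ext (hM.2 e.1 he f.1 hf (g e.1 e.2) (hg e.1 e.2).2 ?_)
    have h3 : g e.1 e.2 = g f.1 f.2 := hef
    rw [h3]
    exact (hg f.1 f.2).2
  rwa [card_attach] at h2

private theorem tch_sub {A : Finset V} {M : Finset (Finset V)} : tch A M ⊆ M := by
  unfold tch
  exact filter_subset _ _

private theorem wtn_card {w : ℕ} {f : Finset (Finset V) → Option Bool} {π : Finset (Finset V)} :
    IsM r (wtn r w f π) ∧ (wtn r w f π).card ≤ w := by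
  unfold wtn
  split_ifs with h
  · exact ⟨h.choose_spec.1, h.choose_spec.2.1⟩
  · exact ⟨isM_emp, by simp⟩

/-- a decided value comes from a small part of `M` (the run from `π`) -/
theorem run_spec' {w : ℕ} {f : Finset (Finset V) → Option Bool} {M : Finset (Finset V)} (hM : IsM r M) (n : ℕ)
    (π : Finset (Finset V)) (hπ : π ⊆ M) (b : Bool) (h : run r w f M n π = some b) :
    ∃ π', π ⊆ π' ∧ π' ⊆ M ∧ π'.card ≤ π.card + n * (r * w) ∧ dec r w f π' = some b := by
  induction n generalizing π with
  | zero => exact ⟨π, Subset.refl _, hπ, by omega, h⟩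
  | succ n ih =>
    unfold run at h
    split_ifs at h with h1 h2
    · exact ⟨π, Subset.refl _, hπ, by omega, h⟩
    · obtain ⟨π', h3, h4, h5, h6⟩ := ih (π ∪ tch (cov (wtn r w f π)) M) (union_subset hπ tch_sub) h
      refine ⟨π', subset_union_left.trans h3, h4, ?_, h6⟩
      have h7 : (cov (wtn r w f π)).card ≤ r * w := by
        have h8 := wtn_card (r := r) (w := w) (f := f) (π := π)
        exact (card_cov_le h8.1).trans (Nat.mul_le_mul_left r h8.2)
      have h9 := card_tch_le (A := cov (wtn r w f π)) hM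
      have h10 := card_union_le π (tch (cov (wtn r w f π)) M)
      have h11 : (n + 1) * (r * w) = n * (r * w) + r * w := by ring
      omega

/-- a decided value comes from a small part of `M` -/
theorem run_spec (_hr : 1 ≤ r) (w : ℕ) (f : Finset (Finset V) → Option Bool) {M : Finset (Finset V)} (hM : IsM r M)
    (n : ℕ) (b : Bool) (h : run r w f M n ∅ = some b) :
    ∃ π, π ⊆ M ∧ π.card ≤ n * (r * w) ∧ dec r w f π = some b := by
  obtain ⟨π, -, h2, h3, h4⟩ := run_spec' hM n ∅ (empty_subset _) b h
  rw [card_empty, zero_add] at h3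
  exact ⟨π, h2, h3, h4⟩

/-- a partial partition above where all values are defined -/
private theorem ext_all {R w : ℕ} {val : Fm W → Finset (Finset V) → Option Bool} (l : List (Fm W))
    (hv : ∀ A ∈ l, Val r w R (val A)) (M : Finset (Finset V)) (hM : IsM r M)
    (hroom : r * (M.card + l.length * w) + R ≤ Fintype.card V) :
    ∃ N, IsM r N ∧ M ⊆ N ∧ ∀ A ∈ l, val A N ≠ none := by
  induction l generalizing M with
  | nil => exact ⟨M, hM, Subset.refl _, fun A hA => absurd hA (List.not_mem_nil)⟩
  | cons A l ih =>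
    have hl : r * (M.card + (A :: l).length * w) = r * (M.card + w + l.length * w) := by
      rw [List.length_cons]
      ring
    rw [hl] at hroom
    have h0 : r * M.card ≤ r * (M.card + w + l.length * w) := Nat.mul_le_mul_left r (by omega)
    obtain ⟨M1, h1, h2, h3, h4⟩ := (hv A List.mem_cons_self).tot M hM (by omega)
    have h0' : r * (M1.card + l.length * w) ≤ r * (M.card + w + l.length * w) :=
      Nat.mul_le_mul_left r (by omega)
    obtain ⟨N, h5, h6, h7⟩ := ih (fun B hB => hv B (List.mem_cons_of_mem _ hB)) M1 h1 (by omega)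
    refine ⟨N, h5, h2.trans h6, fun B hB => ?_⟩
    rcases List.mem_cons.1 hB with rfl | hB
    · obtain ⟨b, hb⟩ := Option.ne_none_iff_exists'.1 h4
      rw [(hv B List.mem_cons_self).mono _ _ h5 h6 b hb]
      exact Option.some_ne_none b
    · exact h7 B hB

/-- one small part of `M` decides all formulas of the list -/
private theorem small_part {w : ℕ} {val : Fm W → Finset (Finset V) → Option Bool} (l : List (Fm W))
    {M : Finset (Finset V)} (hM : IsM r M) (b : Fm W → Bool)
    (h : ∀ A ∈ l, run r w (val A) M (w + 1) ∅ = some (b A)) :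
    ∃ Q, Q ⊆ M ∧ Q.card ≤ l.length * ((w + 1) * (r * w)) ∧
      ∀ A ∈ l, ∃ π, π ⊆ Q ∧ dec r w (val A) π = some (b A) := by
  induction l with
  | nil => exact ⟨∅, empty_subset _, by simp, fun A hA => absurd hA (List.not_mem_nil)⟩
  | cons A l ih =>
    obtain ⟨Q, h1, h2, h3⟩ := ih fun B hB => h B (List.mem_cons_of_mem _ hB)
    obtain ⟨π, -, h5, h6, h7⟩ := run_spec' hM (w + 1) ∅ (empty_subset _) (b A) (h A List.mem_cons_self)
    refine ⟨Q ∪ π, union_subset h1 h5, ?_, fun B hB => ?_⟩
    · have h8 := card_union_le Q π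
      rw [card_empty, zero_add] at h6
      have hl : (A :: l).length * ((w + 1) * (r * w)) = l.length * ((w + 1) * (r * w)) + (w + 1) * (r * w) := by
        rw [List.length_cons]
        ring
      rw [hl]
      omega
    · rcases List.mem_cons.1 hB with rfl | hB
      · exact ⟨π, subset_union_right, h7⟩
      · obtain ⟨ρ, h8, h9⟩ := h3 B hB
        exact ⟨ρ, h8.trans subset_union_left, h9⟩

/-- decided values of at most three formulas are the values at one partial partition -/
theorem common (_hr : 1 ≤ r) {w : ℕ} {val : Fm W → Finset (Finset V) → Option Bool} {S : Set (Fm W)}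
    (hval : ∀ A ∈ S, Val r w (2 * r * r * w) (val A)) (hL : 100 * r ^ 2 * (w + 1) ^ 2 ≤ Fintype.card V)
    (l : List (Fm W)) (hl : l.length ≤ 3) (hS : ∀ A ∈ l, A ∈ S) {M : Finset (Finset V)} (hM : IsM r M)
    (b : Fm W → Bool) (h : ∀ A ∈ l, run r w (val A) M (w + 1) ∅ = some (b A)) :
    ∃ N, IsM r N ∧ ∀ A ∈ l, val A N = some (b A) := by
  obtain ⟨Q, h1, h2, h3⟩ := small_part l hM b h
  have h4 : l.length * ((w + 1) * (r * w)) ≤ 3 * ((w + 1) * (r * w)) := Nat.mul_le_mul_right _ hl
  have h5 : l.length * w ≤ 3 * w := Nat.mul_le_mul_right _ hl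
  have h6 : r * (Q.card + l.length * w) ≤ r * (3 * ((w + 1) * (r * w)) + 3 * w) :=
    Nat.mul_le_mul_left r (by omega)
  have h7 : r * (3 * ((w + 1) * (r * w)) + 3 * w) + 2 * r * r * w ≤ 100 * r ^ 2 * (w + 1) ^ 2 := by
    have e1 : r ≤ r ^ 2 := Nat.le_self_pow (by omega) r
    have e2 : r * w ≤ r ^ 2 * w := Nat.mul_le_mul_right w e1
    have e3 : r * (3 * ((w + 1) * (r * w)) + 3 * w) + 2 * r * r * w
        = 3 * (r ^ 2 * w ^ 2) + 3 * (r ^ 2 * w) + 3 * (r * w) + 2 * (r ^ 2 * w) := by ring
    have e4 : 100 * r ^ 2 * (w + 1) ^ 2 = 100 * (r ^ 2 * w ^ 2) + 200 * (r ^ 2 * w) + 100 * r ^ 2 := by ring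
    rw [e3, e4]
    omega
  obtain ⟨N, h8, h9, h10⟩ := ext_all (r := r) (R := 2 * r * r * w) l (fun A hA => hval A (hS A hA)) Q
    (isM_down hM h1) (by omega)
  refine ⟨N, h8, fun A hA => ?_⟩
  obtain ⟨c, hc⟩ := Option.ne_none_iff_exists'.1 (h10 A hA)
  obtain ⟨π, h11, h12⟩ := h3 A hA
  rw [hc, dec_val (hval A (hS A hA)) h12 h8 (h11.trans h9) hc]

end Pool.Agent.H27.RG
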